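import Pool.Agent.Lib.MP_39c2b7_co.H38.Tjoin

/-!
Module DSPLIT (PL4) of the strong arboricity project; duals with `ZMod 2` valued functions.
-/

set_option autoImplicit false

namespace StrongArb.H38

open Classical

section Dsplit

variable {V : Type} [Fintype V]

/-- `ZMod 2` valued even functions on the edges -/
def Ev (G : SimpleGraph V) (f : Sym2 V → ZMod 2) : Prop :=
  (∀ e, e ∉ G.edgeSet → f e = 0) ∧
    ∀ v, ∑ e ∈ Finset.univ.filter (fun e : Sym2 V => v ∈ e), f e = 0

theorem ev_iff (G : SimpleGraph V) (f : Sym2 V → ZMod 2) : Ev G f ↔ EvenSet G {e | f e ≠ 0} := by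
  unfold Ev EvenSet
  refine and_congr ?_ (forall_congr' fun v => ?_)
  · constructor
    · intro h e he
      by_contra h1
      exact he (h e h1)
    · intro h e he
      by_contra h1
      exact he (h h1)
  · rw [← ZMod.natCast_eq_zero_iff_even, ncard_parity {e | f e ≠ 0} f (fun e => Iff.rfl) v]

theorem evenSet_iff (G : SimpleGraph V) (F : Set (Sym2 V)) :
    EvenSet G F ↔ Ev G (fun e => if e ∈ F then 1 else 0) := by
  rw [ev_iff]
  have h1 : ({e | (if e ∈ F then (1 : ZMod 2) else 0) ≠ 0} : Set (Sym2 V)) = F := by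
    ext e
    by_cases h : e ∈ F <;> simp [h]
  rw [h1]

/-- `f` is the dual cut function of `s` -/
def IsCutFun (G : SimpleGraph V) {W : Type} (ends : Sym2 V → W × W) (s : W → ZMod 2)
    (f : Sym2 V → ZMod 2) : Prop :=
  ∀ e, f e = if e ∈ G.edgeSet then s (ends e).1 + s (ends e).2 else 0

theorem zmod2_cases : ∀ z : ZMod 2, z = 0 ∨ z = 1 := by decide

theorem zmod2_add_ne : ∀ a b : ZMod 2, a + b ≠ 0 ↔ ¬ (a ≠ 0 ↔ b ≠ 0) := by decide

theorem zmod2_ext : ∀ a b : ZMod 2, a = b ↔ (a ≠ 0 ↔ b ≠ 0) := by decide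

omit [Fintype V] in
theorem isCutFun_iff (G : SimpleGraph V) {W : Type} (ends : Sym2 V → W × W) (s : W → ZMod 2)
    (f : Sym2 V → ZMod 2) :
    IsCutFun G ends s f ↔ IsDualCut G ends {w | s w ≠ 0} {e | f e ≠ 0} := by
  unfold IsCutFun IsDualCut
  refine forall_congr' fun e => ?_
  rw [zmod2_ext]
  simp only [Set.mem_ofPred_eq]
  by_cases h : e ∈ G.edgeSet
  · simp only [h, if_true, true_and]
    rw [zmod2_add_ne]
  · simp only [h, if_false, false_and]
    simp

theorem isDual_iff (G : SimpleGraph V) {W : Type} (ends : Sym2 V → W × W) :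
    IsDual G ends ↔ ∀ f : Sym2 V → ZMod 2, Ev G f ↔ ∃ s : W → ZMod 2, IsCutFun G ends s f := by
  constructor
  · intro h f
    rw [ev_iff, h]
    constructor
    · rintro ⟨S, hS⟩
      refine ⟨fun w => if w ∈ S then 1 else 0, ?_⟩
      rw [isCutFun_iff]
      have h1 : ({w | (if w ∈ S then (1 : ZMod 2) else 0) ≠ 0} : Set W) = S := by
        ext w
        by_cases h : w ∈ S <;> simp [h]
      rw [h1]
      exact hS
    · rintro ⟨s, hs⟩
      exact ⟨_, (isCutFun_iff G ends s f).mp hs⟩
  · intro h F
    rw [evenSet_iff, h]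
    have hF : ({e | (if e ∈ F then (1 : ZMod 2) else 0) ≠ 0} : Set (Sym2 V)) = F := by
      ext e
      by_cases h : e ∈ F <;> simp [h]
    constructor
    · rintro ⟨s, hs⟩
      rw [isCutFun_iff, hF] at hs
      exact ⟨_, hs⟩
    · rintro ⟨S, hS⟩
      refine ⟨fun w => if w ∈ S then 1 else 0, ?_⟩
      rw [isCutFun_iff, hF]
      have h1 : ({w | (if w ∈ S then (1 : ZMod 2) else 0) ≠ 0} : Set W) = S := by
        ext w
        by_cases h : w ∈ S <;> simp [h]
      rw [h1]
      exact hS

/-- the triangle as a function -/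
noncomputable def tri (v x y : V) : Sym2 V → ZMod 2 :=
  Pi.single s(v, x) 1 + Pi.single s(v, y) 1 + Pi.single s(x, y) 1

theorem tri_sum {v x y : V} (h1 : v ≠ x) (h2 : v ≠ y) (h3 : x ≠ y) (u : V) :
    ∑ e ∈ Finset.univ.filter (fun e : Sym2 V => u ∈ e), tri v x y e = 0 := by
  unfold tri
  simp only [Pi.add_apply]
  rw [Finset.sum_add_distrib, Finset.sum_add_distrib, sum_single_edge h1, sum_single_edge h2,
    sum_single_edge h3]
  have key : ∀ a b c : ZMod 2, a + b + (a + c) + (b + c) = 0 := by decide
  exact key _ _ _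

omit [Fintype V] in
theorem tri_apply {v x y : V} (h1 : v ≠ x) (h2 : v ≠ y) (h3 : x ≠ y) (e : Sym2 V) :
    tri v x y e = if e = s(v, x) ∨ e = s(v, y) ∨ e = s(x, y) then 1 else 0 := by
  unfold tri
  have n1 : s(v, x) ≠ s(v, y) := by
    intro h
    rw [Sym2.eq_iff] at h
    rcases h with ⟨_, h⟩ | ⟨h, _⟩
    · exact h3 h
    · exact h2 h
  have n2 : s(v, x) ≠ s(x, y) := by
    intro h
    rw [Sym2.eq_iff] at h
    rcases h with ⟨h, _⟩ | ⟨h, _⟩
    · exact h1 h
    · exact h2 h
  have n3 : s(v, y) ≠ s(x, y) := by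
    intro h
    rw [Sym2.eq_iff] at h
    rcases h with ⟨h, _⟩ | ⟨h, _⟩
    · exact h1 h
    · exact h2 h
  simp only [Pi.add_apply, Pi.single_apply]
  by_cases a1 : e = s(v, x)
  · subst a1
    simp only [n1, n2, if_true, if_false, true_or, add_zero]
  · by_cases a2 : e = s(v, y)
    · subst a2
      simp only [a1, n3, if_true, if_false, true_or, or_true, add_zero, zero_add]
    · by_cases a3 : e = s(x, y)
      · subst a3
        simp only [a1, a2, if_true, if_false, or_true, zero_add]
      · simp only [a1, a2, a3, if_false, or_false, add_zero]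

end Dsplit

/-- Module DSPLIT. -/
theorem dsplit : DualSplitStatement := by
  intro V _ G W _ ends hD v x y w hxy hvx hvy hnxy hw1 hw2
  have : Fintype V := Fintype.ofFinite V
  rw [isDual_iff] at hD
  set G' := G ⊔ SimpleGraph.fromEdgeSet {s(x, y)} with hG'
  have hG'e : ∀ e, e ∈ G'.edgeSet ↔ e ∈ G.edgeSet ∨ e = s(x, y) := by
    intro e
    rw [hG', SimpleGraph.edgeSet_sup, SimpleGraph.edgeSet_fromEdgeSet]
    constructor
    · rintro (h | h)
      · exact Or.inl h
      · exact Or.inr h.1
    · rintro (h | h)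
      · exact Or.inl h
      · refine Or.inr ⟨h, ?_⟩
        subst h
        exact hxy
  have hxyG : s(x, y) ∉ G.edgeSet := hnxy
  have hvxG : s(v, x) ∈ G.edgeSet := hvx
  have hvyG : s(v, y) ∈ G.edgeSet := hvy
  have nvx : v ≠ x := hvx.ne
  have nvy : v ≠ y := hvy.ne
  have nn : s(v, x) ≠ s(v, y) := by
    intro h
    rw [Sym2.eq_iff] at h
    rcases h with ⟨_, h⟩ | ⟨h, _⟩
    · exact hxy h
    · exact nvy h
  -- the new ends
  set sp : W × W → Option W × Option W := fun q =>
    if q.1 = w then (none, some q.2) else (some q.1, none) with hsp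
  set ends' : Sym2 V → Option W × Option W := fun e =>
    if e = s(x, y) then (none, some w)
    else if e = s(v, x) ∨ e = s(v, y) then sp (ends e)
    else (some (ends e).1, some (ends e).2) with hends'
  have hspsum : ∀ (s' : Option W → ZMod 2) (q : W × W), (q.1 = w ∨ q.2 = w) →
      s' (sp q).1 + s' (sp q).2 = s' (some q.1) + s' (some q.2) + (s' none + s' (some w)) := by
    intro s' q hq
    have key : ∀ a b c : ZMod 2, a + b = c + b + (a + c) := by decide
    have key2 : ∀ a b c : ZMod 2, a + b = a + c + (b + c) := by decide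
    rw [hsp]
    by_cases h1 : q.1 = w
    · simp only [h1, if_true]
      exact key _ _ _
    · have h2 : q.2 = w := hq.resolve_left h1
      simp only [h1, if_false, h2]
      exact key2 _ _ _
  have hcut : ∀ (s' : Option W → ZMod 2) (e : Sym2 V), e ∈ G'.edgeSet →
      s' (ends' e).1 + s' (ends' e).2 =
        (if e ∈ G.edgeSet then s' (some (ends e).1) + s' (some (ends e).2) else 0) +
          (s' none + s' (some w)) * tri v x y e := by
    intro s' e he
    rw [tri_apply nvx nvy hxy]
    simp only [hends']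
    by_cases a1 : e = s(x, y)
    · subst a1
      rw [if_pos rfl, if_neg hxyG, if_pos (Or.inr (Or.inr rfl)), mul_one, zero_add]
    · have heG : e ∈ G.edgeSet := ((hG'e e).mp he).resolve_right a1
      by_cases a2 : e = s(v, x) ∨ e = s(v, y)
      · have a3 : e = s(v, x) ∨ e = s(v, y) ∨ e = s(x, y) := by tauto
        rw [if_neg a1, if_pos a2, if_pos a3, if_pos heG, mul_one]
        apply hspsum
        rcases a2 with rfl | rfl
        · exact hw1
        · exact hw2
      · have a3 : ¬ (e = s(v, x) ∨ e = s(v, y) ∨ e = s(x, y)) := by tauto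
        rw [if_neg a1, if_neg a2, if_neg a3, if_pos heG, mul_zero, add_zero]
  have htri : ∀ e, e ∉ G'.edgeSet → tri v x y e = 0 := by
    intro e he
    rw [hG'e] at he
    rw [tri_apply nvx nvy hxy, if_neg]
    rintro (h | h | h)
    · exact he (Or.inl (h ▸ hvxG))
    · exact he (Or.inl (h ▸ hvyG))
    · exact he (Or.inr h)
  have htrixy : tri v x y s(x, y) = 1 := by
    rw [tri_apply nvx nvy hxy]
    simp
  refine ⟨Option W, inferInstance, ends', ?_⟩
  rw [isDual_iff]
  intro f
  -- even functions
  have hEv : Ev G' f ↔ Ev G (fun e => f e + f s(x, y) * tri v x y e) := by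
    unfold Ev
    constructor
    · rintro ⟨h1, h2⟩
      refine ⟨fun e he => ?_, fun u => ?_⟩
      · show f e + f s(x, y) * tri v x y e = 0
        by_cases a1 : e = s(x, y)
        · subst a1
          rw [htrixy, mul_one]
          exact CharTwo.add_self_eq_zero _
        · have a2 : e ∉ G'.edgeSet := by
            rw [hG'e]
            tauto
          rw [h1 e a2, htri e a2, mul_zero, add_zero]
      · show ∑ e ∈ Finset.univ.filter (fun e : Sym2 V => u ∈ e),
          (f e + f s(x, y) * tri v x y e) = 0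
        rw [Finset.sum_add_distrib, ← Finset.mul_sum, tri_sum nvx nvy hxy, h2, mul_zero, add_zero]
    · rintro ⟨h1, h2⟩
      refine ⟨fun e he => ?_, fun u => ?_⟩
      · have h3 := h1 e (fun h => he ((hG'e e).mpr (Or.inl h)))
        simp only [htri e he, mul_zero, add_zero] at h3
        exact h3
      · have h3 := h2 u
        simp only at h3
        rw [Finset.sum_add_distrib, ← Finset.mul_sum, tri_sum nvx nvy hxy, mul_zero,
          add_zero] at h3
        exact h3
  rw [hEv, hD]
  constructor
  · rintro ⟨s, hs⟩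
    set s1 : Option W → ZMod 2 := fun o => o.elim (s w + f s(x, y)) s with hs1
    have hs1n : s1 none = s w + f s(x, y) := rfl
    have hs1s : ∀ a, s1 (some a) = s a := fun a => rfl
    refine ⟨s1, fun e => ?_⟩
    have h3 := hs e
    simp only at h3
    by_cases he : e ∈ G'.edgeSet
    · rw [if_pos he, hcut s1 e he]
      simp only [hs1n, hs1s]
      have key : ∀ a b c d t : ZMod 2, a + b * t = c → a = c + (d + b + d) * t := by decide
      exact key _ _ _ _ _ h3
    · rw [if_neg he]
      have he' : e ∉ G.edgeSet := fun h => he ((hG'e e).mpr (Or.inl h))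
      rw [if_neg he', htri e he, mul_zero, add_zero] at h3
      exact h3
  · rintro ⟨s', hs'⟩
    refine ⟨fun a => s' (some a), fun e => ?_⟩
    show f e + f s(x, y) * tri v x y e = _
    have hfxy : f s(x, y) = s' none + s' (some w) := by
      have hm : s(x, y) ∈ G'.edgeSet := (hG'e _).mpr (Or.inr rfl)
      have h4 := hs' s(x, y)
      rw [if_pos hm, hcut _ _ hm, if_neg hxyG, htrixy, mul_one, zero_add] at h4
      exact h4
    by_cases he : e ∈ G'.edgeSet
    · rw [hfxy, hs' e, if_pos he, hcut _ e he]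
      have key : ∀ a b : ZMod 2, a + b + b = a := by decide
      exact key _ _
    · have he' : e ∉ G.edgeSet := fun h => he ((hG'e e).mpr (Or.inl h))
      rw [if_neg he', htri e he, mul_zero, add_zero, hs' e, if_neg he]

end StrongArb.H38
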