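import Pool.Agent.Lib.MP_39c2b7_co.Interfaces

/-!
Modules NOK5 (C1) and COL of the strong arboricity project.
-/

set_option autoImplicit false

namespace StrongArb.H38

open Classical

/-- Module NOK5. -/
theorem nok5 : NoK5Statement := by
  intro V G hM hK
  obtain ⟨A, hA1, hA2, hA3⟩ := hK
  have huniq : ∀ (v : V) (i j : Fin 5), v ∈ A i → v ∈ A j → i = j := by
    intro v i j hi hj
    by_contra hne
    exact Set.disjoint_left.mp (hA2 i j hne) hi hj
  set φ : V → Option (Fin 5) := fun v => if h : ∃ i, v ∈ A i then some h.choose else none with hφ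
  have hφA : ∀ v i, φ v = some i ↔ v ∈ A i := by
    intro v i
    constructor
    · intro h
      by_cases h1 : ∃ i, v ∈ A i
      · have h2 : φ v = some h1.choose := by
          simp only [hφ]
          exact dif_pos h1
        rw [h2, Option.some_inj] at h
        rw [← h]
        exact h1.choose_spec
      · have h2 : φ v = none := by
          simp only [hφ]
          exact dif_neg h1
        rw [h2] at h
        exact absurd h (by simp)
    · intro h
      have h1 : ∃ i, v ∈ A i := ⟨i, h⟩
      have h2 : φ v = some h1.choose := by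
        simp only [hφ]
        exact dif_pos h1
      rw [h2, Option.some_inj]
      exact huniq v _ _ h1.choose_spec h
  have hset : ∀ i, {v | φ v = some i} = A i := by
    intro i
    ext v
    exact hφA v i
  have hmm : MinorMap G (⊤ : SimpleGraph (Fin 5)) φ := by
    constructor
    · intro i
      rw [hset]
      exact hA1 i
    · intro a b hab
      obtain ⟨u, hu, v, hv, huv⟩ := hA3 a b hab.ne
      exact ⟨u, v, (hφA u a).mpr hu, (hφA v b).mpr hv, huv⟩
  have hb := hM.bound (⊤ : SimpleGraph (Fin 5)) φ hmm SimpleGraph.connected_top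
    (by rw [Nat.card_eq_fintype_card, Fintype.card_fin]; norm_num)
  have hc : (⊤ : SimpleGraph (Fin 5)).edgeSet.ncard = 10 := by
    rw [← SimpleGraph.coe_edgeFinset, Set.ncard_coe_finset,
      SimpleGraph.card_edgeFinset_top_eq_card_choose_two, Fintype.card_fin]
    rfl
  rw [hc, Nat.card_eq_fintype_card, Fintype.card_fin] at hb
  omega

theorem exists_slope : ∀ x y : Pt, ∃ s : Fin 4, form s x = form s y := by decide

/-- Module COL. -/
theorem col : ColouringStatement := by
  rintro V G ⟨p, hp⟩
  have hex : ∀ e : Sym2 V, ∃ s : Fin 4, ∀ a ∈ e, ∀ b ∈ e, form s (p a) = form s (p b) := by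
    intro e
    induction e using Sym2.ind with
    | _ x y =>
      obtain ⟨s, hs⟩ := exists_slope (p x) (p y)
      refine ⟨s, fun a ha b hb => ?_⟩
      rw [Sym2.mem_iff] at ha hb
      rcases ha with rfl | rfl <;> rcases hb with rfl | rfl
      · rfl
      · exact hs
      · exact hs.symm
      · rfl
  choose cl hcl using hex
  refine ⟨cl, ?_⟩
  rintro u v w hw hlen huv ⟨c, hc⟩
  have hedge : ∀ e ∈ w.edges, e ∈ (slopeGraph G p c).edgeSet := by
    intro e he
    have h1 := hcl e
    rw [hc e he] at h1
    have h2 : e ∈ G.edgeSet := w.edges_subset_edgeSet he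
    induction e using Sym2.ind with
    | _ x y => exact ⟨h2, h1 x (Sym2.mem_mk_left x y) y (Sym2.mem_mk_right x y)⟩
  have hform : ∀ {u v : V} (w : G.Walk u v), (∀ e ∈ w.edges, e ∈ (slopeGraph G p c).edgeSet) →
      form c (p u) = form c (p v) := by
    intro u v w
    induction w with
    | nil => exact fun _ => rfl
    | @cons a b d h w ih =>
      intro hall
      have h1 : s(a, b) ∈ (slopeGraph G p c).edgeSet := hall _ (by simp)
      exact h1.2.trans (ih fun e he => hall e (by simp [he]))
  have hadj : (slopeGraph G p c).Adj u v := ⟨huv, hform w hedge⟩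
  have hpath : (w.transfer (slopeGraph G p c) hedge).IsPath := hw.transfer hedge
  have huniq := ((hp.forest c).subsingleton_path u v).elim ⟨_, hpath⟩
    (SimpleGraph.Path.singleton hadj)
  have h3 := congrArg
    (fun q : (slopeGraph G p c).Path u v => (q : (slopeGraph G p c).Walk u v).length) huniq
  simp only [SimpleGraph.Walk.length_transfer, SimpleGraph.Path.singleton] at h3
  simp at h3
  omega

end StrongArb.H38
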