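import Pool.Agent.Lib.MP_39c2b7_co.Interfaces

/-!
Modules TJOIN (PL1) and REPL (E1) of the strong arboricity project.
-/

set_option autoImplicit false

namespace StrongArb.H38

open Classical

section Tjoin

variable {V : Type} [Fintype V]

theorem sum_single_edge {a c : V} (hac : a ≠ c) (v : V) :
    ∑ e ∈ Finset.univ.filter (fun e : Sym2 V => v ∈ e), (Pi.single s(a, c) 1 : Sym2 V → ZMod 2) e =
      (if v = a then 1 else 0) + (if v = c then 1 else 0) := by
  rw [Finset.sum_filter]
  have h1 : ∀ e : Sym2 V, (if v ∈ e then (Pi.single s(a, c) 1 : Sym2 V → ZMod 2) e else 0) =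
      if e = s(a, c) then (if v ∈ s(a, c) then 1 else 0) else 0 := by
    intro e
    by_cases he : e = s(a, c)
    · subst he
      simp
    · simp [he]
  simp only [h1]
  rw [Finset.sum_ite_eq' Finset.univ]
  simp only [Finset.mem_univ, if_true, Sym2.mem_iff]
  by_cases h2 : v = a
  · subst h2
    simp [hac]
  · by_cases h3 : v = c
    · subst h3
      simp [h2]
    · simp [h2, h3]

theorem chain_exists (G : SimpleGraph V) {a b : V} (p : G.Walk a b) :
    ∃ f : Sym2 V → ZMod 2, (∀ e, f e ≠ 0 → e ∈ G.edgeSet) ∧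
      ∀ v, ∑ e ∈ Finset.univ.filter (fun e : Sym2 V => v ∈ e), f e =
        (if v = a then 1 else 0) + (if v = b then 1 else 0) := by
  induction p with
  | nil =>
    refine ⟨0, fun e he => absurd rfl he, fun v => ?_⟩
    rw [CharTwo.add_self_eq_zero]
    simp
  | @cons a c b h p ih =>
    obtain ⟨f, hf, hs⟩ := ih
    refine ⟨Pi.single s(a, c) 1 + f, fun e he => ?_, fun v => ?_⟩
    · by_cases h1 : e = s(a, c)
      · subst h1
        exact h
      · apply hf
        intro h2
        apply he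
        simp [h1, h2]
    · simp only [Pi.add_apply]
      rw [Finset.sum_add_distrib, sum_single_edge h.ne, hs]
      have h3 : (if v = a then (1 : ZMod 2) else 0) + (if v = c then 1 else 0) +
          ((if v = c then 1 else 0) + (if v = b then 1 else 0)) =
          (if v = a then 1 else 0) + (if v = b then 1 else 0) +
            ((if v = c then 1 else 0) + (if v = c then 1 else 0)) := by ring
      rw [h3, CharTwo.add_self_eq_zero, add_zero]

theorem ncard_parity (F : Set (Sym2 V)) (f : Sym2 V → ZMod 2) (hF : ∀ e, e ∈ F ↔ f e ≠ 0) (v : V) :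
    ((({e | e ∈ F ∧ v ∈ e} : Set (Sym2 V)).ncard : ℕ) : ZMod 2) =
      ∑ e ∈ Finset.univ.filter (fun e : Sym2 V => v ∈ e), f e := by
  have h1 : ({e | e ∈ F ∧ v ∈ e} : Set (Sym2 V)) =
      ((Finset.univ.filter (fun e : Sym2 V => v ∈ e)).filter (fun e => f e ≠ 0) :
        Finset (Sym2 V)) := by
    ext e
    simp only [Set.mem_ofPred_eq, Finset.coe_filter, Finset.mem_filter, Finset.mem_univ, true_and,
      hF]
    tauto
  rw [h1, Set.ncard_coe_finset, Finset.card_eq_sum_ones, Nat.cast_sum, Finset.sum_filter]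
  refine Finset.sum_congr rfl fun e _ => ?_
  have h2 : ∀ z : ZMod 2, (if z ≠ 0 then (((1 : ℕ) : ℕ) : ZMod 2) else 0) = z := by decide
  exact h2 (f e)

end Tjoin

/-- Module TJOIN. -/
theorem tjoin : TjoinStatement := by
  intro V _ G hG T hT
  have : Fintype V := Fintype.ofFinite V
  obtain ⟨a0⟩ := hG.nonempty
  have hw : ∀ t : V, ∃ f : Sym2 V → ZMod 2, (∀ e, f e ≠ 0 → e ∈ G.edgeSet) ∧
      ∀ v, ∑ e ∈ Finset.univ.filter (fun e : Sym2 V => v ∈ e), f e =
        (if v = a0 then 1 else 0) + (if v = t then 1 else 0) := fun t => by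
    obtain ⟨p⟩ := hG.preconnected a0 t
    exact chain_exists G p
  choose f hf hs using hw
  have hTf : T.Finite := Set.toFinite T
  set S : Finset V := hTf.toFinset with hS
  have hcard : ((S.card : ℕ) : ZMod 2) = 0 := by
    rw [← Set.ncard_eq_toFinset_card T hTf, ZMod.natCast_eq_zero_iff_even]
    exact hT
  refine ⟨{e | ∑ t ∈ S, f t e ≠ 0}, ?_, fun v => ?_⟩
  · intro e he
    obtain ⟨t, _, ht⟩ := Finset.exists_ne_zero_of_sum_ne_zero he
    exact hf t e ht
  · have h1 := ncard_parity {e | ∑ t ∈ S, f t e ≠ 0} (fun e => ∑ t ∈ S, f t e)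
      (fun e => Iff.rfl) v
    rw [Finset.sum_comm] at h1
    simp only [hs] at h1
    rw [Finset.sum_add_distrib, Finset.sum_const, nsmul_eq_mul, hcard, zero_mul, zero_add,
      Finset.sum_ite_eq S v] at h1
    rw [← Nat.not_even_iff_odd, ← ZMod.natCast_eq_zero_iff_even, h1]
    have h2 : v ∈ S ↔ v ∈ T := by rw [hS]; exact hTf.mem_toFinset
    by_cases h3 : v ∈ T
    · simp [h2, h3]
    · simp [h2, h3]

/-- Module REPL. -/
theorem repl : ReplaceStatement := by
  intro V V' A AK B BQ φ hAK hBQ hB hAKa h1 h2 h3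
  -- edges outside `AK` are bridges
  have key : ∀ u v, A.Adj u v → ¬ AK.Adj u v →
      ¬ (A \ SimpleGraph.fromEdgeSet {s(u, v)}).Reachable u v := by
    intro u v huv hnk hreach
    obtain ⟨hBuv, hQuv⟩ := h1 u v huv hnk
    set B' := B \ SimpleGraph.fromEdgeSet {s(φ u, φ v)} with hB'
    have hQB' : BQ ≤ B' := by
      intro x y hxy
      rw [hB', SimpleGraph.sdiff_adj]
      refine ⟨hBQ hxy, fun hc => ?_⟩
      rw [SimpleGraph.fromEdgeSet_adj] at hc
      have h4 : s(x, y) = s(φ u, φ v) := hc.1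
      rw [Sym2.eq_iff] at h4
      rcases h4 with ⟨rfl, rfl⟩ | ⟨rfl, rfl⟩
      · exact hQuv hxy
      · exact hQuv hxy.symm
    have hend : ∃ w, A.Adj u w ∧ ¬ AK.Adj u w := ⟨v, huv, hnk⟩
    have hend' : ∃ w, A.Adj v w ∧ ¬ AK.Adj v w := ⟨u, huv.symm, fun h => hnk h.symm⟩
    have hind : ∀ {z x : V} (_ : (A \ SimpleGraph.fromEdgeSet {s(u, v)}).Walk z x),
        (∃ y, (∃ w, A.Adj y w ∧ ¬ AK.Adj y w) ∧ B'.Reachable (φ u) (φ y) ∧ AK.Reachable y z) →
        ∃ y, (∃ w, A.Adj y w ∧ ¬ AK.Adj y w) ∧ B'.Reachable (φ u) (φ y) ∧ AK.Reachable y x := by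
      intro z x p
      induction p with
      | nil => exact id
      | @cons z z' x hadj p ih =>
        rintro ⟨y, hy, hr, hk⟩
        apply ih
        rw [SimpleGraph.sdiff_adj] at hadj
        by_cases hzz : AK.Adj z z'
        · exact ⟨y, hy, hr, hk.trans hzz.reachable⟩
        · have hz : ∃ w, A.Adj z w ∧ ¬ AK.Adj z w := ⟨z', hadj.1, hzz⟩
          have hz' : ∃ w, A.Adj z' w ∧ ¬ AK.Adj z' w := ⟨z, hadj.1.symm, fun h => hzz h.symm⟩
          have hq := (h3 y z hk hy hz).mono hQB'
          refine ⟨z', hz', (hr.trans hq).trans ?_, SimpleGraph.Reachable.refl _⟩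
          apply SimpleGraph.Adj.reachable
          rw [hB', SimpleGraph.sdiff_adj]
          refine ⟨(h1 z z' hadj.1 hzz).1, fun hc => ?_⟩
          rw [SimpleGraph.fromEdgeSet_adj] at hc
          have h4 : s(φ z, φ z') = s(φ u, φ v) := hc.1
          have h5 := h2 z z' u v hadj.1 hzz huv hnk h4
          exact hadj.2 (by
            rw [SimpleGraph.fromEdgeSet_adj]
            exact ⟨h5, hadj.1.ne⟩)
    obtain ⟨p⟩ := hreach
    obtain ⟨y, hy, hr, hk⟩ := hind p ⟨u, hend, SimpleGraph.Reachable.refl _,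
      SimpleGraph.Reachable.refl _⟩
    have hq := (h3 y v hk hy hend').mono hQB'
    have hfin : B'.Reachable (φ u) (φ v) := hr.trans hq
    rw [SimpleGraph.isAcyclic_iff_forall_adj_isBridge] at hB
    have hbr := hB hBuv
    rw [SimpleGraph.isBridge_iff] at hbr
    exact hbr hfin
  intro x c hc
  have hall : ∀ e ∈ c.edges, e ∈ AK.edgeSet := by
    intro e he
    induction e using Sym2.ind with
    | _ u v =>
      by_contra hnk
      have huv : A.Adj u v := c.adj_of_mem_edges he
      apply key u v huv hnk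
      have := SimpleGraph.adj_and_reachable_delete_edges_iff_exists_cycle.mpr ⟨x, c, hc, he⟩
      exact this.2
  exact hAKa (c.transfer AK hall) (hc.transfer hall)

end StrongArb.H38
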